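import Pool.Agent.W845.DH.Stm

set_option autoImplicit false
open scoped Classical
open scoped BigOperators

namespace Pool.Agent.W19.DH

open Pool.Agent.W845.DH

theorem vs_card_le {V : Type} (F : Finset (V × V)) : (vs F).card ≤ 2 * F.card := by
  unfold vs
  calc (F.image Prod.fst ∪ F.image Prod.snd).card
      ≤ (F.image Prod.fst).card + (F.image Prod.snd).card := Finset.card_union_le _ _
    _ ≤ F.card + F.card := add_le_add Finset.card_image_le Finset.card_image_le
    _ = 2 * F.card := by ring

theorem fst_mem_vs {V : Type} {F : Finset (V × V)} {e : V × V} (he : e ∈ F) : e.1 ∈ vs F :=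
  Finset.mem_union_left _ (Finset.mem_image_of_mem _ he)

theorem snd_mem_vs {V : Type} {F : Finset (V × V)} {e : V × V} (he : e ∈ F) : e.2 ∈ vs F :=
  Finset.mem_union_right _ (Finset.mem_image_of_mem _ he)

/-- if every arc meets `W` there are few arcs -/
theorem few_arcs {V : Type} (D : V → V → Prop) (S T W : Finset V) (b : ℝ) (hb : 0 ≤ b)
    (hS : ∀ v ∈ S, (od D v T : ℝ) ≤ b) (hT : ∀ v ∈ T, (idg D v S : ℝ) ≤ b)
    (hW : ∀ u ∈ S, ∀ w ∈ T, D u w → u ∈ W ∨ w ∈ W) :
    (ee D S T : ℝ) ≤ (W.card : ℝ) * (2 * b) := by
  have hsub : (S ×ˢ T).filter (fun e => D e.1 e.2) ⊆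
      (W.filter (fun z => z ∈ S)).biUnion (fun z => (T.filter (fun w => D z w)).image
        (fun w => (z, w))) ∪
      (W.filter (fun z => z ∈ T)).biUnion (fun z => (S.filter (fun w => D w z)).image
        (fun w => (w, z))) := by
    intro e he
    rw [Finset.mem_filter, Finset.mem_product] at he
    obtain ⟨⟨h1, h2⟩, h3⟩ := he
    rw [Finset.mem_union]
    rcases hW e.1 h1 e.2 h2 h3 with h | h
    · left
      rw [Finset.mem_biUnion]
      refine ⟨e.1, Finset.mem_filter.2 ⟨h, h1⟩, ?_⟩
      rw [Finset.mem_image]
      exact ⟨e.2, Finset.mem_filter.2 ⟨h2, h3⟩, rfl⟩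
    · right
      rw [Finset.mem_biUnion]
      refine ⟨e.2, Finset.mem_filter.2 ⟨h, h2⟩, ?_⟩
      rw [Finset.mem_image]
      exact ⟨e.1, Finset.mem_filter.2 ⟨h1, h3⟩, rfl⟩
  have h1 : (((W.filter (fun z => z ∈ S)).biUnion (fun z => (T.filter (fun w => D z w)).image
      (fun w => (z, w)))).card : ℝ) ≤ (W.card : ℝ) * b := by
    calc (((W.filter (fun z => z ∈ S)).biUnion (fun z => (T.filter (fun w => D z w)).image
          (fun w => (z, w)))).card : ℝ)
        ≤ ((∑ z ∈ W.filter (fun z => z ∈ S), ((T.filter (fun w => D z w)).image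
          (fun w => (z, w))).card : ℕ) : ℝ) := by exact_mod_cast Finset.card_biUnion_le
      _ = ∑ z ∈ W.filter (fun z => z ∈ S), ((((T.filter (fun w => D z w)).image
          (fun w => (z, w))).card : ℕ) : ℝ) := by push_cast; rfl
      _ ≤ ∑ z ∈ W.filter (fun z => z ∈ S), b := by
          refine Finset.sum_le_sum fun z hz => ?_
          refine le_trans ?_ (hS z (Finset.mem_filter.1 hz).2)
          unfold od
          exact_mod_cast Finset.card_image_le
      _ = ((W.filter (fun z => z ∈ S)).card : ℝ) * b := by rw [Finset.sum_const, nsmul_eq_mul]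
      _ ≤ (W.card : ℝ) * b := by
          gcongr
          exact Finset.filter_subset _ _
  have h2 : (((W.filter (fun z => z ∈ T)).biUnion (fun z => (S.filter (fun w => D w z)).image
      (fun w => (w, z)))).card : ℝ) ≤ (W.card : ℝ) * b := by
    calc (((W.filter (fun z => z ∈ T)).biUnion (fun z => (S.filter (fun w => D w z)).image
          (fun w => (w, z)))).card : ℝ)
        ≤ ((∑ z ∈ W.filter (fun z => z ∈ T), ((S.filter (fun w => D w z)).image
          (fun w => (w, z))).card : ℕ) : ℝ) := by exact_mod_cast Finset.card_biUnion_le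
      _ = ∑ z ∈ W.filter (fun z => z ∈ T), ((((S.filter (fun w => D w z)).image
          (fun w => (w, z))).card : ℕ) : ℝ) := by push_cast; rfl
      _ ≤ ∑ z ∈ W.filter (fun z => z ∈ T), b := by
          refine Finset.sum_le_sum fun z hz => ?_
          refine le_trans ?_ (hT z (Finset.mem_filter.1 hz).2)
          unfold idg
          exact_mod_cast Finset.card_image_le
      _ = ((W.filter (fun z => z ∈ T)).card : ℝ) * b := by rw [Finset.sum_const, nsmul_eq_mul]
      _ ≤ (W.card : ℝ) * b := by
          gcongr
          exact Finset.filter_subset _ _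
  have h3 : ee D S T ≤ _ := (Finset.card_le_card hsub).trans (Finset.card_union_le _ _)
  have h4 := (Nat.cast_le (α := ℝ)).2 h3
  rw [Nat.cast_add] at h4
  linarith

theorem dm : S_DM := by
  intro V _ D S T Z b k hb hD hS hT hlt
  have key : ∀ j : ℕ, j ≤ k → ∃ F : Finset (V × V), VDs F ∧ F.card = j ∧
      (∀ e ∈ F, D e.1 e.2 ∧ e.1 ∈ S ∧ e.2 ∈ T ∧ e.1 ∉ Z ∧ e.2 ∉ Z) := by
    intro j
    induction j with
    | zero =>
      intro _
      exact ⟨∅, ⟨by simp, by simp⟩, rfl, by simp⟩
    | succ j ih =>
      intro hj
      obtain ⟨F, hF, hFc, hFp⟩ := ih (by omega)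
      have hex : ∃ u ∈ S, ∃ w ∈ T, D u w ∧ u ∉ vs F ∪ Z ∧ w ∉ vs F ∪ Z := by
        by_contra hcon
        push Not at hcon
        have h1 := few_arcs D S T (vs F ∪ Z) b hb hS hT (by
          intro u hu w hw hDuw
          by_contra hh
          push Not at hh
          exact hh.2 (hcon u hu w hw hDuw hh.1))
        have h2 : ((vs F ∪ Z).card : ℝ) ≤ 2 * k + Z.card := by
          have h3 : (vs F ∪ Z).card ≤ 2 * k + Z.card := by
            calc (vs F ∪ Z).card ≤ (vs F).card + Z.card := Finset.card_union_le _ _
              _ ≤ 2 * F.card + Z.card := by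
                  have := vs_card_le F
                  omega
              _ ≤ 2 * k + Z.card := by omega
          exact_mod_cast h3
        have h4 : ((vs F ∪ Z).card : ℝ) * (2 * b) ≤ (2 * k + Z.card : ℝ) * (2 * b) := by
          gcongr
        linarith
      obtain ⟨u, hu, w, hw, hDuw, hu', hw'⟩ := hex
      rw [Finset.mem_union] at hu' hw'
      push Not at hu' hw'
      have hne : u ≠ w := by
        rintro rfl
        exact hD u hDuw
      have hnot : (u, w) ∉ F := fun h => hu'.1 (fst_mem_vs (e := (u, w)) h)
      refine ⟨insert (u, w) F, ⟨?_, ?_⟩, ?_, ?_⟩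
      · intro e he
        rcases Finset.mem_insert.1 he with rfl | he
        · exact hne
        · exact hF.1 e he
      · intro e he f hf hef
        rcases Finset.mem_insert.1 he with rfl | he
        · rcases Finset.mem_insert.1 hf with rfl | hf
          · exact absurd rfl hef
          · refine ⟨?_, ?_, ?_, ?_⟩
            · intro h
              exact hu'.1 ((show u = f.1 from h) ▸ fst_mem_vs hf)
            · intro h
              exact hu'.1 ((show u = f.2 from h) ▸ snd_mem_vs hf)
            · intro h
              exact hw'.1 ((show w = f.1 from h) ▸ fst_mem_vs hf)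
            · intro h
              exact hw'.1 ((show w = f.2 from h) ▸ snd_mem_vs hf)
        · rcases Finset.mem_insert.1 hf with rfl | hf
          · refine ⟨?_, ?_, ?_, ?_⟩
            · intro h
              exact hu'.1 ((show e.1 = u from h) ▸ fst_mem_vs he)
            · intro h
              exact hw'.1 ((show e.1 = w from h) ▸ fst_mem_vs he)
            · intro h
              exact hu'.1 ((show e.2 = u from h) ▸ snd_mem_vs he)
            · intro h
              exact hw'.1 ((show e.2 = w from h) ▸ snd_mem_vs he)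
          · exact hF.2 e he f hf hef
      · rw [Finset.card_insert_of_notMem hnot, hFc]
      · intro e he
        rcases Finset.mem_insert.1 he with rfl | he
        · exact ⟨hDuw, hu, hw, hu'.2, hw'.2⟩
        · exact hFp e he
  exact key k le_rfl

end Pool.Agent.W19.DH
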